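import Pool.Agent.P8H72.JF.Stm2

set_option autoImplicit false

/-! # Package TWA of project JF (helper75) -/

namespace Pool.Agent.P8H75.JF

open Matrix Pool.Agent.P8H72.JF

section general

variable {g : ℕ}

/-- an endomorphism of the surface group from an endomorphism of the free group which fixes the relator -/
def dsc (f : FreeGroup (Fin g ⊕ Fin g) →* FreeGroup (Fin g ⊕ Fin g)) (hf : f (rel g) = rel g) :
    Sg g →* Sg g :=
  PresentedGroup.toGroup (rels := {rel g})
    (f := fun x => PresentedGroup.mk {rel g} (f (FreeGroup.of x))) (fun r hr => by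
      rw [Set.mem_singleton_iff] at hr
      subst hr
      have h1 : FreeGroup.lift (fun x => PresentedGroup.mk {rel g} (f (FreeGroup.of x))) =
          (PresentedGroup.mk {rel g}).comp f := by
        ext x
        simp
      rw [h1, MonoidHom.comp_apply, hf]
      exact PresentedGroup.one_of_mem (Set.mem_singleton _))

theorem dsc_mk (f : FreeGroup (Fin g ⊕ Fin g) →* FreeGroup (Fin g ⊕ Fin g)) (hf : f (rel g) = rel g)
    (w : FreeGroup (Fin g ⊕ Fin g)) :
    dsc f hf (PresentedGroup.mk {rel g} w) = PresentedGroup.mk {rel g} (f w) := by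
  have h1 : (dsc f hf).comp (PresentedGroup.mk {rel g}) = (PresentedGroup.mk {rel g}).comp f := by
    refine FreeGroup.ext_hom _ _ fun x => ?_
    rw [MonoidHom.comp_apply, MonoidHom.comp_apply]
    exact PresentedGroup.toGroup.of _
  exact DFunLike.congr_fun h1 w

theorem hv_mk (w : FreeGroup (Fin g ⊕ Fin g)) :
    hv (PresentedGroup.mk {rel g} w) = Multiplicative.toAdd (fh g w) := by
  have h1 : (hm g).comp (PresentedGroup.mk {rel g}) = fh g := by
    refine FreeGroup.ext_hom _ _ fun x => ?_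
    rw [MonoidHom.comp_apply]
    exact PresentedGroup.toGroup.of _
  exact congrArg Multiplicative.toAdd (DFunLike.congr_fun h1 w)

theorem hom_vec (f : FreeGroup (Fin g ⊕ Fin g) →* FreeGroup (Fin g ⊕ Fin g)) (A : Mat g)
    (h : ∀ y, Multiplicative.toAdd (fh g (f (FreeGroup.of y))) = A *ᵥ Pi.single y 1)
    (w : FreeGroup (Fin g ⊕ Fin g)) :
    Multiplicative.toAdd (fh g (f w)) = A *ᵥ Multiplicative.toAdd (fh g w) := by
  have hof : ∀ y, Multiplicative.toAdd (fh g (FreeGroup.of y)) = Pi.single y 1 := by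
    intro y
    simp [fh]
  induction w using FreeGroup.induction_on with
  | C1 => simp
  | of y => rw [h, hof]
  | inv_of y hy =>
    rw [map_inv f, map_inv (fh g), map_inv (fh g), toAdd_inv, toAdd_inv, hy, mulVec_neg]
  | mul x y hx hy =>
    rw [map_mul f, map_mul (fh g), map_mul (fh g), toAdd_mul, toAdd_mul, hx, hy, mulVec_add]

/-- the automorphism -/
theorem exists_aut (f f' : FreeGroup (Fin g ⊕ Fin g) →* FreeGroup (Fin g ⊕ Fin g))
    (hf : f (rel g) = rel g) (hf' : f' (rel g) = rel g)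
    (h1 : ∀ y, f' (f (FreeGroup.of y)) = FreeGroup.of y)
    (h2 : ∀ y, f (f' (FreeGroup.of y)) = FreeGroup.of y) (A : Mat g)
    (h : ∀ y, Multiplicative.toAdd (fh g (f (FreeGroup.of y))) = A *ᵥ Pi.single y 1) :
    ∃ φ : MulAut (Sg g), ∀ x, hv (φ x) = A *ᵥ hv x := by
  refine ⟨MonoidHom.toMulEquiv (dsc f hf) (dsc f' hf') ?_ ?_, ?_⟩
  · refine PresentedGroup.ext fun x => ?_
    rw [MonoidHom.comp_apply, MonoidHom.id_apply]
    change dsc f' hf' (dsc f hf (PresentedGroup.mk {rel g} (FreeGroup.of x))) = PresentedGroup.mk {rel g} (FreeGroup.of x)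
    rw [dsc_mk, dsc_mk, h1]
  · refine PresentedGroup.ext fun x => ?_
    rw [MonoidHom.comp_apply, MonoidHom.id_apply]
    change dsc f hf (dsc f' hf' (PresentedGroup.mk {rel g} (FreeGroup.of x))) = PresentedGroup.mk {rel g} (FreeGroup.of x)
    rw [dsc_mk, dsc_mk, h2]
  · intro x
    obtain ⟨w, rfl⟩ := PresentedGroup.mk_surjective {rel g} x
    change hv (dsc f hf (PresentedGroup.mk {rel g} w)) = _
    rw [dsc_mk, hv_mk, hv_mk]
    exact hom_vec f A h w

/-- the relator is fixed if the commutators are -/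
theorem rel_fix (f : FreeGroup (Fin g ⊕ Fin g) →* FreeGroup (Fin g ⊕ Fin g))
    (h : ∀ k : Fin g, f (FreeGroup.of (Sum.inl k)) * f (FreeGroup.of (Sum.inr k)) *
      (f (FreeGroup.of (Sum.inl k)))⁻¹ * (f (FreeGroup.of (Sum.inr k)))⁻¹ =
      FreeGroup.of (Sum.inl k) * FreeGroup.of (Sum.inr k) *
      (FreeGroup.of (Sum.inl k))⁻¹ * (FreeGroup.of (Sum.inr k))⁻¹) : f (rel g) = rel g := by
  unfold rel
  rw [map_list_prod, List.map_ofFn]
  congr 2
  funext k
  rw [Function.comp_apply, map_mul, map_mul, map_mul, map_inv, map_inv]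
  exact h k

/-- `p ↦ p q ^ e` -/
def tw1 (p q : Fin g ⊕ Fin g) (e : ℤ) :
    FreeGroup (Fin g ⊕ Fin g) →* FreeGroup (Fin g ⊕ Fin g) :=
  FreeGroup.lift fun x => if x = p then FreeGroup.of p * FreeGroup.of q ^ e else FreeGroup.of x

theorem tw1_p (p q : Fin g ⊕ Fin g) (e : ℤ) :
    tw1 p q e (FreeGroup.of p) = FreeGroup.of p * FreeGroup.of q ^ e := by
  simp [tw1]

theorem tw1_ne {p x : Fin g ⊕ Fin g} (q : Fin g ⊕ Fin g) (e : ℤ) (h : x ≠ p) :
    tw1 p q e (FreeGroup.of x) = FreeGroup.of x := by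
  simp [tw1, h]

theorem tw1_inv {p q : Fin g ⊕ Fin g} (h : q ≠ p) (e : ℤ) (x : Fin g ⊕ Fin g) :
    tw1 p q (-e) (tw1 p q e (FreeGroup.of x)) = FreeGroup.of x := by
  by_cases hx : x = p
  · subst hx
    rw [tw1_p, map_mul, map_zpow, tw1_p, tw1_ne _ _ h]
    group
  · rw [tw1_ne _ _ hx, tw1_ne _ _ hx]

theorem tw1_fix_b (i : Fin g) (e : ℤ) : tw1 (Sum.inr i) (Sum.inl i) e (rel g) = rel g := by
  refine rel_fix _ fun k => ?_
  by_cases hk : k = i
  · subst hk
    rw [tw1_p, tw1_ne _ _ (by simp : (Sum.inl k : Fin g ⊕ Fin g) ≠ Sum.inr k)]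
    group
  · rw [tw1_ne _ _ (by simp : (Sum.inl k : Fin g ⊕ Fin g) ≠ Sum.inr i),
      tw1_ne _ _ (by simpa using hk : (Sum.inr k : Fin g ⊕ Fin g) ≠ Sum.inr i)]

theorem tw1_fix_a (i : Fin g) (e : ℤ) : tw1 (Sum.inl i) (Sum.inr i) e (rel g) = rel g := by
  refine rel_fix _ fun k => ?_
  by_cases hk : k = i
  · subst hk
    rw [tw1_p, tw1_ne _ _ (by simp : (Sum.inr k : Fin g ⊕ Fin g) ≠ Sum.inl k)]
    group
  · rw [tw1_ne _ _ (by simp : (Sum.inr k : Fin g ⊕ Fin g) ≠ Sum.inl i),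
      tw1_ne _ _ (by simpa using hk : (Sum.inl k : Fin g ⊕ Fin g) ≠ Sum.inl i)]

theorem fh_of (y : Fin g ⊕ Fin g) :
    Multiplicative.toAdd (fh g (FreeGroup.of y)) = Pi.single y 1 := by
  simp [fh]

theorem tw1_vec (p q : Fin g ⊕ Fin g) (y : Fin g ⊕ Fin g) :
    Multiplicative.toAdd (fh g (tw1 p q 1 (FreeGroup.of y))) =
      Pi.single y 1 + if y = p then Pi.single q 1 else 0 := by
  by_cases hy : y = p
  · subst hy
    rw [tw1_p, map_mul, zpow_one, toAdd_mul, fh_of, fh_of, if_pos rfl]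
  · rw [tw1_ne _ _ hy, fh_of, if_neg hy, add_zero]

end general

/-- TWA -/
theorem t_TWA : S_TWA := by
  intro g i
  constructor
  · refine exists_aut (tw1 (Sum.inr i) (Sum.inl i) 1) (tw1 (Sum.inr i) (Sum.inl i) (-1))
      (tw1_fix_b i 1) (tw1_fix_b i (-1)) (tw1_inv (by simp) 1) ?_ _ ?_
    · intro y
      have := tw1_inv (by simp : (Sum.inl i : Fin g ⊕ Fin g) ≠ Sum.inr i) (-1) y
      rwa [neg_neg] at this
    · intro y
      rw [tw1_vec, mulVec_single_one]
      funext x
      rcases x with x | x <;> rcases y with y | y <;>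
        simp [S, Matrix.single_apply, Pi.single_apply, Matrix.one_apply, Matrix.col_apply] <;>
        split_ifs <;> aesop
  · refine exists_aut (tw1 (Sum.inl i) (Sum.inr i) 1) (tw1 (Sum.inl i) (Sum.inr i) (-1))
      (tw1_fix_a i 1) (tw1_fix_a i (-1)) (tw1_inv (by simp) 1) ?_ _ ?_
    · intro y
      have := tw1_inv (by simp : (Sum.inr i : Fin g ⊕ Fin g) ≠ Sum.inl i) (-1) y
      rwa [neg_neg] at this
    · intro y
      rw [tw1_vec, mulVec_single_one]
      funext x
      rcases x with x | x <;> rcases y with y | y <;>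
        simp [T, Matrix.single_apply, Pi.single_apply, Matrix.one_apply, Matrix.col_apply] <;>
        split_ifs <;> aesop

end Pool.Agent.P8H75.JF
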